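import Pool.Agent.W2helper32.LP.Stm

/-!
# Project LP: stress-free contact frameworks and prescribed radii
-/

set_option autoImplicit false

namespace Pool.Agent.W2helper98.LP

open Finset Filter Topology
open Pool.Agent.W2helper32.LP

section

variable {V : Type} [Fintype V] (G : SimpleGraph V)

/-- the oriented edges -/
def P (p : V × V) : Prop := G.Adj p.1 p.2 ∧ Fintype.equivFin V p.1 < Fintype.equivFin V p.2

open Classical in
/-- sums over the oriented edges -/
theorem sum_edges (a : {p : V × V // P G p} → ℝ) (g : V × V → ℝ) :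
    ∑ e : {p : V × V // P G p}, a e * g e.1 =
      ∑ u, ∑ v, (if h : P G (u, v) then a ⟨(u, v), h⟩ else 0) * g (u, v) := by
  have h1 : ∑ u, ∑ v, (if h : P G (u, v) then a ⟨(u, v), h⟩ else 0) * g (u, v) =
      ∑ p : V × V, (if h : P G p then a ⟨p, h⟩ else 0) * g p :=
    (Fintype.sum_prod_type (fun p : V × V => (if h : P G p then a ⟨p, h⟩ else 0) * g p)).symm
  rw [h1]
  have h2 : ∑ p : V × V, (if h : P G p then a ⟨p, h⟩ else 0) * g p =
      ∑ p ∈ univ.filter (P G), (if h : P G p then a ⟨p, h⟩ else 0) * g p := by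
    symm
    apply Finset.sum_filter_of_ne
    intro p _ hne
    by_contra hc
    apply hne
    rw [dif_neg hc, zero_mul]
  rw [h2, Finset.sum_subtype (univ.filter (P G)) (p := P G) (by simp)]
  apply Finset.sum_congr rfl
  intro e _
  rw [dif_pos e.2]

/-- the rigidity map -/
noncomputable def M (x y : V → ℝ) : ((V → ℝ) × (V → ℝ)) →ₗ[ℝ] ({p : V × V // P G p} → ℝ) where
  toFun z e := 2 * (x e.1.1 - x e.1.2) * (z.1 e.1.1 - z.1 e.1.2) +
    2 * (y e.1.1 - y e.1.2) * (z.2 e.1.1 - z.2 e.1.2)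
  map_add' z z' := by
    funext e
    simp only [Prod.fst_add, Prod.snd_add, Pi.add_apply]
    ring
  map_smul' c z := by
    funext e
    simp only [Prod.smul_fst, Prod.smul_snd, Pi.smul_apply, smul_eq_mul, RingHom.id_apply]
    ring

open Classical in
theorem M_surj {x y : V → ℝ} (hI : Indep G x y) : Function.Surjective (M G x y) := by
  rw [← LinearMap.range_eq_top]
  by_contra hne
  obtain ⟨φ, hφ0, hφ⟩ := Submodule.exists_le_ker_of_lt_top _ (lt_top_iff_ne_top.mpr hne)
  let a : {p : V × V // P G p} → ℝ := fun e => φ (Pi.single e 1)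
  have hsum : ∀ c, φ c = ∑ e, a e * c e := by
    intro c
    conv_lhs => rw [← Finset.univ_sum_single c]
    rw [map_sum]
    apply Finset.sum_congr rfl
    intro e _
    have h1 : Pi.single (M := fun _ : {p : V × V // P G p} => ℝ) e (c e) =
        c e • Pi.single e (1 : ℝ) := by
      rw [← Pi.single_smul, smul_eq_mul, mul_one]
    rw [h1, map_smul, smul_eq_mul, mul_comm]
  let ω : V → V → ℝ := fun u v => if h : P G (u, v) then a ⟨(u, v), h⟩ else 0
  have hker : ∀ z : (V → ℝ) × (V → ℝ), ∑ u, ∑ v, ω u v * (2 * (x u - x v) * (z.1 u - z.1 v) +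
      2 * (y u - y v) * (z.2 u - z.2 v)) = 0 := by
    intro z
    have h1 : φ (M G x y z) = 0 := hφ (LinearMap.mem_range_self _ z)
    rw [hsum] at h1
    rw [← h1]
    exact (sum_edges G a (fun p => 2 * (x p.1 - x p.2) * (z.1 p.1 - z.1 p.2) +
      2 * (y p.1 - y p.2) * (z.2 p.1 - z.2 p.2))).symm
  -- the key computation
  have key : ∀ (g : V → ℝ) (i : V), ∑ u, ∑ v, ω u v * ((g u - g v) *
      ((Pi.single i 1 : V → ℝ) u - (Pi.single i 1 : V → ℝ) v)) =
      ∑ j, (ω i j + ω j i) * (g i - g j) := by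
    intro g i
    have h1 : ∀ u v, ω u v * ((g u - g v) *
        ((Pi.single i 1 : V → ℝ) u - (Pi.single i 1 : V → ℝ) v)) =
        (Pi.single i 1 : V → ℝ) u * (ω u v * (g u - g v)) +
        (Pi.single i 1 : V → ℝ) v * (ω u v * (g v - g u)) := by
      intro u v
      ring
    simp only [h1, Finset.sum_add_distrib, ← Finset.mul_sum]
    rw [Finset.sum_comm (f := fun u v => (Pi.single i 1 : V → ℝ) v * (ω u v * (g v - g u)))]
    simp only [← Finset.mul_sum]
    have h2 : ∀ t : V → ℝ, ∑ u, (Pi.single i 1 : V → ℝ) u * t u = t i := by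
      intro t
      rw [Finset.sum_eq_single i]
      · rw [Pi.single_eq_same, one_mul]
      · intro b _ hb
        rw [Pi.single_eq_of_ne hb, zero_mul]
      · intro h
        exact absurd (mem_univ i) h
    rw [h2, h2, ← Finset.sum_add_distrib]
    apply Finset.sum_congr rfl
    intro j _
    ring
  have hw := hI (fun i j => ω i j + ω j i) (fun i j => add_comm _ _) (by
      intro i j hij
      have h1 : ω i j = 0 := dif_neg fun h => hij h.1
      have h2 : ω j i = 0 := dif_neg fun h => hij h.1.symm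
      show ω i j + ω j i = 0
      rw [h1, h2, add_zero])
    (by
      intro i
      have h1 := hker (Pi.single i 1, 0)
      rw [← key x i]
      have h2 : ∑ u, ∑ v, ω u v * (2 * (x u - x v) *
          (((Pi.single i 1, 0) : (V → ℝ) × (V → ℝ)).1 u -
            ((Pi.single i 1, 0) : (V → ℝ) × (V → ℝ)).1 v) +
          2 * (y u - y v) * (((Pi.single i 1, 0) : (V → ℝ) × (V → ℝ)).2 u -
            ((Pi.single i 1, 0) : (V → ℝ) × (V → ℝ)).2 v)) =
          2 * ∑ u, ∑ v, ω u v * ((x u - x v) *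
            ((Pi.single i 1 : V → ℝ) u - (Pi.single i 1 : V → ℝ) v)) := by
        simp only [Finset.mul_sum]
        refine Finset.sum_congr rfl fun u _ => Finset.sum_congr rfl fun v _ => ?_
        simp only [Pi.zero_apply]
        ring
      rw [h2] at h1
      linarith)
    (by
      intro i
      have h1 := hker (0, Pi.single i 1)
      rw [← key y i]
      have h2 : ∑ u, ∑ v, ω u v * (2 * (x u - x v) *
          (((0, Pi.single i 1) : (V → ℝ) × (V → ℝ)).1 u -
            ((0, Pi.single i 1) : (V → ℝ) × (V → ℝ)).1 v) +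
          2 * (y u - y v) * (((0, Pi.single i 1) : (V → ℝ) × (V → ℝ)).2 u -
            ((0, Pi.single i 1) : (V → ℝ) × (V → ℝ)).2 v)) =
          2 * ∑ u, ∑ v, ω u v * ((y u - y v) *
            ((Pi.single i 1 : V → ℝ) u - (Pi.single i 1 : V → ℝ) v)) := by
        simp only [Finset.mul_sum]
        refine Finset.sum_congr rfl fun u _ => Finset.sum_congr rfl fun v _ => ?_
        simp only [Pi.zero_apply]
        ring
      rw [h2] at h1
      linarith)
  apply hφ0
  refine LinearMap.ext fun c => ?_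
  rw [hsum, LinearMap.zero_apply]
  refine Finset.sum_eq_zero fun e _ => ?_
  have h1 : a e = 0 := by
    have h2 := hw e.1.1 e.1.2
    have h3 : ω e.1.1 e.1.2 = a e := dif_pos e.2
    have h4 : ω e.1.2 e.1.1 = 0 := dif_neg fun h => lt_asymm e.2.2 h.2
    have h5 : ω e.1.1 e.1.2 + ω e.1.2 e.1.1 = 0 := h2
    rw [h3, h4, add_zero] at h5
    exact h5
  rw [h1, zero_mul]

/-- the space of the configurations -/
abbrev XX (V : Type) := (V → ℝ) × (V → ℝ) × (V → ℝ)

/-- coordinate maps -/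
noncomputable def c1 (v : V) : XX V →L[ℝ] ℝ :=
  (ContinuousLinearMap.proj v).comp (ContinuousLinearMap.fst ℝ (V → ℝ) ((V → ℝ) × (V → ℝ)))

noncomputable def c2 (v : V) : XX V →L[ℝ] ℝ :=
  (ContinuousLinearMap.proj v).comp ((ContinuousLinearMap.fst ℝ (V → ℝ) (V → ℝ)).comp
    (ContinuousLinearMap.snd ℝ (V → ℝ) ((V → ℝ) × (V → ℝ))))

noncomputable def c3 (v : V) : XX V →L[ℝ] ℝ :=
  (ContinuousLinearMap.proj v).comp ((ContinuousLinearMap.snd ℝ (V → ℝ) (V → ℝ)).comp
    (ContinuousLinearMap.snd ℝ (V → ℝ) ((V → ℝ) × (V → ℝ))))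

theorem sq_deriv (A : XX V →L[ℝ] ℝ) (a : XX V) :
    HasStrictFDerivAt (fun b => A b ^ 2) ((2 * A a) • A) a := by
  have h := (A.hasStrictFDerivAt (x := a)).mul (A.hasStrictFDerivAt (x := a))
  have h2 : (fun b => A b ^ 2) = fun b => A b * A b := by
    funext b
    ring
  rw [h2]
  refine h.congr_fderiv ?_
  ext b <;> simp <;> ring

/-- the squared distance minus the square of the sum of the radii -/
noncomputable def qq (u v : V) (b : XX V) : ℝ :=
  (c1 u - c1 v) b ^ 2 + (c2 u - c2 v) b ^ 2 - (c3 u + c3 v) b ^ 2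

omit [Fintype V] in
theorem qq_eq (u v : V) (b : XX V) :
    qq u v b = (b.1 u - b.1 v) ^ 2 + (b.2.1 u - b.2.1 v) ^ 2 - (b.2.2 u + b.2.2 v) ^ 2 := rfl

/-- its derivative -/
noncomputable def dq (a : XX V) (u v : V) : XX V →L[ℝ] ℝ :=
  (2 * (c1 u - c1 v) a) • (c1 u - c1 v) + (2 * (c2 u - c2 v) a) • (c2 u - c2 v) -
    (2 * (c3 u + c3 v) a) • (c3 u + c3 v)

theorem qq_deriv (a : XX V) (u v : V) : HasStrictFDerivAt (qq u v) (dq a u v) a :=
  ((sq_deriv _ a).add (sq_deriv _ a)).sub (sq_deriv _ a)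

end

theorem p_ift : P_IFT := by
  classical
  intro V _ G x y r hP hI
  let a₀ : XX V := (x, y, r)
  let F : XX V → ({p : V × V // P G p} → ℝ) × (V → ℝ) := fun a =>
    (fun e => qq e.1.1 e.1.2 a, a.2.2)
  let L : XX V →L[ℝ] ({p : V × V // P G p} → ℝ) × (V → ℝ) :=
    (ContinuousLinearMap.pi fun e : {p : V × V // P G p} => dq a₀ e.1.1 e.1.2).prod
      ((ContinuousLinearMap.snd ℝ (V → ℝ) (V → ℝ)).comp
        (ContinuousLinearMap.snd ℝ (V → ℝ) ((V → ℝ) × (V → ℝ))))
  have hL : HasStrictFDerivAt F L a₀ := by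
    refine HasStrictFDerivAt.prodMk ?_ ?_
    · exact hasStrictFDerivAt_pi.mpr fun e => qq_deriv a₀ e.1.1 e.1.2
    · exact ((ContinuousLinearMap.snd ℝ (V → ℝ) (V → ℝ)).comp
        (ContinuousLinearMap.snd ℝ (V → ℝ) ((V → ℝ) × (V → ℝ)))).hasStrictFDerivAt
  have hsurj : Function.Surjective L := by
    rintro ⟨c, s⟩
    obtain ⟨z, hz⟩ := M_surj G hI fun e => c e + 2 * (r e.1.1 + r e.1.2) * (s e.1.1 + s e.1.2)
    refine ⟨(z.1, z.2, s), Prod.ext ?_ rfl⟩
    funext e
    have h1 := congrFun hz e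
    have h2 : (M G x y z) e = 2 * (x e.1.1 - x e.1.2) * (z.1 e.1.1 - z.1 e.1.2) +
      2 * (y e.1.1 - y e.1.2) * (z.2 e.1.1 - z.2 e.1.2) := rfl
    rw [h2] at h1
    show 2 * (x e.1.1 - x e.1.2) * (z.1 e.1.1 - z.1 e.1.2) +
      2 * (y e.1.1 - y e.1.2) * (z.2 e.1.1 - z.2 e.1.2) -
      2 * (r e.1.1 + r e.1.2) * (s e.1.1 + s e.1.2) = c e
    linarith
  have hmap := hL.map_nhds_eq_of_surj (LinearMap.range_eq_top.mpr hsurj)
  have hF0 : F a₀ = (0, r) := by
    refine Prod.ext ?_ rfl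
    funext e
    show (x e.1.1 - x e.1.2) ^ 2 + (y e.1.1 - y e.1.2) ^ 2 - (r e.1.1 + r e.1.2) ^ 2 = 0
    have h1 := ((hP.2 e.1.1 e.1.2 e.2.1.ne).2.mp e.2.1)
    linarith
  -- the open conditions
  have hU : ∀ᶠ a : XX V in 𝓝 a₀, (∀ v, 0 < a.2.2 v) ∧ ∀ u v, u ≠ v → ¬ G.Adj u v →
      (a.2.2 u + a.2.2 v) ^ 2 < (a.1 u - a.1 v) ^ 2 + (a.2.1 u - a.2.1 v) ^ 2 := by
    refine Filter.Eventually.and ?_ ?_
    · rw [Filter.eventually_all]
      intro v
      have hc : Continuous fun a : XX V => a.2.2 v := by fun_prop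
      exact hc.continuousAt.eventually (lt_mem_nhds (hP.1 v))
    · rw [Filter.eventually_all]
      intro u
      rw [Filter.eventually_all]
      intro v
      by_cases h : u ≠ v ∧ ¬ G.Adj u v
      · have hc1 : Continuous fun a : XX V => (a.2.2 u + a.2.2 v) ^ 2 := by fun_prop
        have hc2 : Continuous fun a : XX V => (a.1 u - a.1 v) ^ 2 + (a.2.1 u - a.2.1 v) ^ 2 := by
          fun_prop
        have h0 : (r u + r v) ^ 2 < (x u - x v) ^ 2 + (y u - y v) ^ 2 := by
          have h1 := hP.2 u v h.1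
          refine lt_of_le_of_ne h1.1 fun h2 => h.2 (h1.2.mpr h2.symm)
        filter_upwards [hc1.continuousAt.eventually_lt hc2.continuousAt h0] with a ha
        exact fun _ _ => ha
      · refine Filter.Eventually.of_forall fun a h1 h2 => absurd ⟨h1, h2⟩ h
  have hcont : Tendsto (fun r' : V → ℝ => ((0 : {p : V × V // P G p} → ℝ), r')) (𝓝 r)
      (𝓝 ((0 : {p : V × V // P G p} → ℝ), r)) := by
    have : Continuous fun r' : V → ℝ => ((0 : {p : V × V // P G p} → ℝ), r') := by fun_prop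
    exact this.tendsto r
  rw [hF0] at hmap
  rw [← hmap] at hcont
  have himg := hcont (Filter.image_mem_map hU)
  filter_upwards [himg] with r' hr'
  obtain ⟨a, ⟨ha1, ha2⟩, haF⟩ := hr'
  have hr2 : a.2.2 = r' := congrArg Prod.snd haF
  have hq : ∀ e : {p : V × V // P G p}, qq e.1.1 e.1.2 a = 0 := fun e =>
    congrFun (congrArg Prod.fst haF) e
  have hadj : ∀ u v, G.Adj u v →
      (a.1 u - a.1 v) ^ 2 + (a.2.1 u - a.2.1 v) ^ 2 = (r' u + r' v) ^ 2 := by
    intro u v huv
    rw [← hr2]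
    rcases lt_trichotomy (Fintype.equivFin V u) (Fintype.equivFin V v) with h | h | h
    · have h1 := hq ⟨(u, v), huv, h⟩
      rw [qq_eq] at h1
      simp only at h1
      linarith
    · exact absurd ((Fintype.equivFin V).injective h) huv.ne
    · have h1 := hq ⟨(v, u), huv.symm, h⟩
      rw [qq_eq] at h1
      simp only at h1
      nlinarith
  refine ⟨a.1, a.2.1, fun v => by rw [← hr2]; exact ha1 v, fun u v huv => ?_⟩
  by_cases h : G.Adj u v
  · have h1 := hadj u v h
    exact ⟨h1.ge, fun _ => h1, fun _ => h⟩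
  · have h1 := ha2 u v huv h
    rw [hr2] at h1
    exact ⟨h1.le, fun h' => absurd h' h, fun h' => absurd h' h1.ne'⟩

end Pool.Agent.W2helper98.LP
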